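import Mathlib
import Pool.Agent.H.MP_271f8e_al.C

set_option autoImplicit false

namespace Pool.Agent.Results.MP_271f8e_al.Counter

open Pool.Agent.H.MP_271f8e_al

theorem result (k : Type) [Field k] [IsAlgClosed k] :
    ∃ (R : Type) (_ : CommRing R) (_ : Algebra k R) (ρ : Bor k →* (R ≃ₐ[k] R)),
      (∀ r : R, (fun b => ρ b r) ∈ Mor (Bor k) R) ∧ IsCM R ∧ ¬ IsCM (ind ρ) :=
  ⟨R k, inferInstance, inferInstance, ρ, rat, cmR k, nInd⟩

end Pool.Agent.Results.MP_271f8e_al.Counter
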